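import Pool.Agent.helper14.Kus3.Defs

/-!
# The pointwise second variation of the test field (module KF5)

The fields involved are all of the form `β x + γ e_z` with `β`, `γ` polynomials in `om` and `et`;
such polynomials are represented by lists of monomials.
-/

open Set Metric MeasureTheory
open scoped ContDiff Topology

namespace Kusner.KF5

/-- the third basis vector -/
noncomputable def ez : E3 := EuclideanSpace.single 2 1

/-- inner product with `x` -/
noncomputable def RR (x : E3) : E3 →L[ℝ] ℝ := innerSL ℝ x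

lemma RR_apply (x v : E3) : RR x v = inner ℝ x v := rfl

lemma inner_ez (v : E3) : inner ℝ ez v = v 2 := by
  rw [ez, EuclideanSpace.inner_single_left]
  simp

lemma inner_ez' (v : E3) : inner ℝ v ez = v 2 := by
  rw [real_inner_comm, inner_ez]

lemma RR_ez (v : E3) : RR ez v = v 2 := inner_ez v

lemma om_pos (x : E3) : 0 < om x := by
  rw [om]; positivity

lemma om_rel (x : E3) : om x * (1 + ‖x‖ ^ 2) = 2 := by
  rw [om]
  have : (1 + ‖x‖ ^ 2) ≠ 0 := by positivity
  field_simp

lemma hasFDerivAt_om (x : E3) : HasFDerivAt om (-(om x ^ 2) • RR x) x := by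
  have h1 : HasFDerivAt (fun y : E3 => ‖y‖ ^ 2) (2 • innerSL ℝ x) x :=
    (hasStrictFDerivAt_norm_sq x).hasFDerivAt
  have h2 : HasFDerivAt (fun y : E3 => 1 + ‖y‖ ^ 2) (2 • innerSL ℝ x) x := h1.const_add 1
  have hne : (1 + ‖x‖ ^ 2) ≠ 0 := by positivity
  have h3 : HasDerivAt (fun t : ℝ => 2 / t) (-(2 / (1 + ‖x‖ ^ 2) ^ 2)) (1 + ‖x‖ ^ 2) := by
    have := (hasDerivAt_inv hne).const_mul 2
    refine this.congr_deriv ?_
    field_simp
  have h4 := h3.comp_hasFDerivAt x h2
  refine (h4.congr_fderiv ?_)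
  ext v
  simp only [smul_apply, RR_apply, smul_eq_mul, innerSL_apply_apply, om,
    nsmul_eq_mul]
  push_cast
  field_simp

lemma hasFDerivAt_two (x : E3) : HasFDerivAt (fun y : E3 => y 2) (RR ez) x := by
  have h : (fun y : E3 => y 2) = fun y => RR ez y := by
    funext y
    rw [RR_ez]
  rw [h]
  exact (RR ez).hasFDerivAt

lemma hasFDerivAt_et (x : E3) : HasFDerivAt et (om x • RR ez - (et x * om x) • RR x) x := by
  have h := (hasFDerivAt_two x).mul (hasFDerivAt_om x)
  refine h.congr_fderiv ?_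
  ext v
  simp only [add_apply, sub_apply,
    smul_apply, smul_eq_mul, et]
  ring

/-- a polynomial in two variables given by a list of monomials `c o^i e^j` -/
def ev (L : List (ℝ × ℕ × ℕ)) (o e : ℝ) : ℝ :=
  (L.map fun t => t.1 * (o ^ t.2.1 * e ^ t.2.2)).sum

/-- the coefficient of `x` in the gradient -/
def evA (L : List (ℝ × ℕ × ℕ)) (o e : ℝ) : ℝ :=
  (L.map fun t => -(t.1 * ((t.2.1 : ℝ) + t.2.2) * (o ^ (t.2.1 + 1) * e ^ t.2.2))).sum

/-- the coefficient of `e_z` in the gradient -/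
def evB (L : List (ℝ × ℕ × ℕ)) (o e : ℝ) : ℝ :=
  (L.map fun t => t.1 * (t.2.2 : ℝ) * (o ^ (t.2.1 + 1) * e ^ (t.2.2 - 1))).sum

lemma hasFDerivAt_mono (c : ℝ) (i j : ℕ) (x : E3) :
    HasFDerivAt (fun y => c * (om y ^ i * et y ^ j))
      (-(c * ((i : ℝ) + j) * (om x ^ (i + 1) * et x ^ j)) • RR x +
        (c * (j : ℝ) * (om x ^ (i + 1) * et x ^ (j - 1))) • RR ez) x := by
  have h := (((hasFDerivAt_om x).pow i).mul ((hasFDerivAt_et x).pow j)).const_mul c
  refine h.congr_fderiv ?_
  ext v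
  simp only [add_apply, sub_apply, smul_apply, smul_eq_mul, nsmul_eq_mul]
  rcases i with _ | i <;> rcases j with _ | j
  · simp
  · simp only [Nat.add_sub_cancel]
    push_cast
    ring
  · simp only [Nat.add_sub_cancel]
    push_cast
    ring
  · simp only [Nat.add_sub_cancel]
    push_cast
    ring

lemma hasFDerivAt_ev (L : List (ℝ × ℕ × ℕ)) (x : E3) :
    HasFDerivAt (fun y => ev L (om y) (et y))
      (evA L (om x) (et x) • RR x + evB L (om x) (et x) • RR ez) x := by
  induction L with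
  | nil =>
    simp only [ev, evA, evB, List.map_nil, List.sum_nil, zero_smul, add_zero]
    exact hasFDerivAt_const _ _
  | cons t L ih =>
    have h := (hasFDerivAt_mono t.1 t.2.1 t.2.2 x).add ih
    have e1 : (fun y => ev (t :: L) (om y) (et y)) =
        fun y => t.1 * (om y ^ t.2.1 * et y ^ t.2.2) + ev L (om y) (et y) := by
      funext y
      simp only [ev, List.map_cons, List.sum_cons]
    rw [e1]
    refine h.congr_fderiv ?_
    ext v
    simp only [evA, evB, List.map_cons, List.sum_cons, add_apply,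
      smul_apply, smul_eq_mul]
    ring

/-- a field of the form `β x + γ e_z` -/
noncomputable def V (L L' : List (ℝ × ℕ × ℕ)) (y : E3) : E3 :=
  ev L (om y) (et y) • y + ev L' (om y) (et y) • ez

/-- its derivative -/
noncomputable def DV (L L' : List (ℝ × ℕ × ℕ)) (x : E3) : E3 →L[ℝ] E3 :=
  ev L (om x) (et x) • ContinuousLinearMap.id ℝ E3 +
    (evA L (om x) (et x) • RR x + evB L (om x) (et x) • RR ez).smulRight x +
    (evA L' (om x) (et x) • RR x + evB L' (om x) (et x) • RR ez).smulRight ez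

lemma hasFDerivAt_V (L L' : List (ℝ × ℕ × ℕ)) (x : E3) :
    HasFDerivAt (V L L') (DV L L' x) x := by
  have h1 := (hasFDerivAt_ev L x).smul (hasFDerivAt_id x)
  have h2 := (hasFDerivAt_ev L' x).smul_const ez
  exact (h1.add h2)

lemma DV_apply (L L' : List (ℝ × ℕ × ℕ)) (x v : E3) :
    DV L L' x v = ev L (om x) (et x) • v +
      (evA L (om x) (et x) * inner ℝ x v + evB L (om x) (et x) * v 2) • x +
      (evA L' (om x) (et x) * inner ℝ x v + evB L' (om x) (et x) * v 2) • ez := by
  simp only [DV, add_apply, smul_apply,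
    ContinuousLinearMap.smulRight_apply, ContinuousLinearMap.id_apply, RR_apply, smul_eq_mul,
    inner_ez]

/-- `g` -/
def LG : List (ℝ × ℕ × ℕ) := [(1, 2, 0), (-1, 2, 4)]
/-- `β` -/
def LB : List (ℝ × ℕ × ℕ) := [(2, 2, 1), (-6, 2, 5), (4, 3, 3)]
/-- `γ` -/
def LC : List (ℝ × ℕ × ℕ) := [(-2, 2, 0), (6, 2, 4), (2, 3, 0), (-6, 3, 4)]
/-- the coefficient of `x` in the acceleration -/
def LP : List (ℝ × ℕ × ℕ) := [(-4, 4, 2), (24, 4, 6), (-36, 4, 10), (-4, 5, 0), (24, 5, 4),
  (60, 5, 8), (4, 6, 0), (-24, 6, 2), (-48, 6, 4), (-56, 6, 6), (12, 6, 8), (24, 7, 2), (24, 7, 6)]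
/-- the coefficient of `e_z` in the acceleration -/
def LQ : List (ℝ × ℕ × ℕ) := [(4, 4, 1), (-24, 4, 5), (36, 4, 9), (-8, 5, 1), (-24, 5, 3),
  (48, 5, 5), (-24, 5, 7), (-72, 5, 9), (40, 6, 3), (72, 6, 7), (-24, 7, 3), (-24, 7, 7)]

lemma norm_sq_coord (x : E3) : ‖x‖ ^ 2 = x 0 ^ 2 + x 1 ^ 2 + x 2 ^ 2 := by
  rw [EuclideanSpace.real_norm_sq_eq, Fin.sum_univ_three]

lemma gfun_eq : gfun = fun y => ev LG (om y) (et y) := by
  funext y
  simp only [gfun, ev, LG, List.map_cons, List.map_nil, List.sum_cons, List.sum_nil]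
  ring

lemma om_two (x : E3) : om x * (1 + (x 0 ^ 2 + x 1 ^ 2 + x 2 ^ 2)) = 2 := by
  rw [← norm_sq_coord, om_rel]

/-- the test field where `χ = 1` -/
lemma fieldX_eq {χ : E3 → ℝ} {U : Set E3} (hU : IsOpen U) (hone : ∀ x ∈ U, χ x = 1) {y : E3}
    (hy : y ∈ U) : fieldX χ y = V LB LC y := by
  have h1 : cg χ =ᶠ[𝓝 y] gfun := by
    filter_upwards [hU.mem_nhds hy] with u hu
    rw [cg, hone u hu, one_mul]
  have h2 : fderiv ℝ (cg χ) y =
      evA LG (om y) (et y) • RR y + evB LG (om y) (et y) • RR ez := by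
    rw [h1.fderiv_eq, gfun_eq]
    exact (hasFDerivAt_ev LG y).fderiv
  have h3 : ∀ i, fderiv ℝ (cg χ) y (EuclideanSpace.single i 1) =
      evA LG (om y) (et y) * y i + evB LG (om y) (et y) * (if i = 2 then 1 else 0) := by
    intro i
    rw [h2]
    simp only [add_apply, smul_apply, RR_apply, smul_eq_mul, inner_ez]
    rw [EuclideanSpace.inner_single_right]
    congr 1
    · simp
    · by_cases h : i = 2
      · subst h; simp
      · rw [if_neg h, PiLp.single_apply, if_neg (fun h' => h h'.symm)]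
  have h4 : cg χ y = ev LG (om y) (et y) := by rw [h1.eq_of_nhds, gfun_eq]
  have hrel := om_two y
  have he : et y = y 2 * om y := rfl
  ext i
  fin_cases i
  · simp [fieldX, V, h3, ez, ev, evA, evB, LG, LB, LC]
    rw [he]
    ring
  · simp [fieldX, V, h3, ez, ev, evA, evB, LG, LB, LC]
    rw [he]
    ring
  · simp [fieldX, V, h3, h4, ez, ev, evA, evB, LG, LB, LC]
    rw [he]
    linear_combination (-(om y ^ 2 * (2 - 6 * (y 2 * om y) ^ 4))) * hrel

lemma om_ne (x : E3) : om x ≠ 0 := (om_pos x).ne'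

lemma norm_sq_eq (x : E3) : ‖x‖ ^ 2 = 2 / om x - 1 := by
  have h := om_rel x
  have h0 := om_ne x
  field_simp
  linear_combination h

lemma two_eq (x : E3) : x 2 = et x / om x := by
  have h0 := om_ne x
  rw [et]
  field_simp

/-- the acceleration field -/
lemma DV_V (y : E3) : DV LB LC y (V LB LC y) = V LP LQ y := by
  have h0 := om_ne y
  have hr := norm_sq_eq y
  have hz := two_eq y
  have hs := real_inner_self_eq_norm_sq y
  rw [DV_apply]
  have i1 : inner ℝ y (V LB LC y) = ev LB (om y) (et y) * ‖y‖ ^ 2 +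
      ev LC (om y) (et y) * y 2 := by
    rw [V, inner_add_right, real_inner_smul_right, real_inner_smul_right, hs, inner_ez']
  have i2 : (V LB LC y) 2 = ev LB (om y) (et y) * y 2 + ev LC (om y) (et y) := by
    rw [← inner_ez, V, inner_add_right, real_inner_smul_right, real_inner_smul_right, inner_ez,
      inner_ez]
    simp [ez]
  rw [i1, i2, V, V]
  generalize om y = o at *
  generalize et y = e at *
  have e1 : ev LB o e * ev LB o e + (evA LB o e * (ev LB o e * ‖y‖ ^ 2 + ev LC o e * y 2) +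
      evB LB o e * (ev LB o e * y 2 + ev LC o e)) = ev LP o e := by
    rw [hr, hz]
    simp only [ev, evA, evB, LB, LC, LP, List.map_cons, List.map_nil, List.sum_cons, List.sum_nil]
    push_cast
    field_simp
    ring
  have e2 : ev LB o e * ev LC o e + (evA LC o e * (ev LB o e * ‖y‖ ^ 2 + ev LC o e * y 2) +
      evB LC o e * (ev LB o e * y 2 + ev LC o e)) = ev LQ o e := by
    rw [hr, hz]
    simp only [ev, evA, evB, LB, LC, LQ, List.map_cons, List.map_nil, List.sum_cons, List.sum_nil]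
    push_cast
    field_simp
    ring
  rw [← e1, ← e2]
  module

lemma adjoint_DV (L L' : List (ℝ × ℕ × ℕ)) (x n : E3) :
    ContinuousLinearMap.adjoint (DV L L' x) n = ev L (om x) (et x) • n +
      (inner ℝ x n * evA L (om x) (et x) + n 2 * evA L' (om x) (et x)) • x +
      (inner ℝ x n * evB L (om x) (et x) + n 2 * evB L' (om x) (et x)) • ez := by
  refine ext_inner_right ℝ fun v => ?_
  rw [ContinuousLinearMap.adjoint_inner_left, DV_apply]
  simp only [inner_add_left, inner_add_right, real_inner_smul_left, real_inner_smul_right,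
    inner_ez, inner_ez']
  rw [real_inner_comm n x]
  ring

/-- inner products of combinations of `n, x, e_z` -/
lemma inner_comb {n x : E3} (hn : ‖n‖ = 1) (u₀ u₁ u₂ v₀ v₁ v₂ : ℝ) :
    inner ℝ (u₀ • n + u₁ • x + u₂ • ez) (v₀ • n + v₁ • x + v₂ • ez) =
      u₀ * v₀ + (u₀ * v₁ + u₁ * v₀) * inner ℝ x n + (u₀ * v₂ + u₂ * v₀) * n 2 +
      u₁ * v₁ * ‖x‖ ^ 2 + (u₁ * v₂ + u₂ * v₁) * x 2 + u₂ * v₂ := by
  have hnn : inner ℝ n n = (1 : ℝ) := by rw [real_inner_self_eq_norm_sq, hn]; norm_num
  have hxx := real_inner_self_eq_norm_sq x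
  have hee : inner ℝ ez ez = (1 : ℝ) := by rw [inner_ez]; simp [ez]
  have h2 : (ez : E3) 2 = 1 := by simp [ez]
  simp only [inner_add_left, inner_add_right, real_inner_smul_left, real_inner_smul_right,
    inner_ez, inner_ez', hnn, hxx, real_inner_comm n x, h2]
  ring

lemma qform_DV {x n : E3} (hn : ‖n‖ = 1) :
    qform (DV LB LC x) (DV LP LQ x) n =
      om x ^ 2 * psi (et x) (n 2 - et x * inner ℝ x n) (1 - om x) (om x * inner ℝ x n) := by
  have h0 := om_ne x
  have hr := norm_sq_eq x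
  have hz := two_eq x
  have hMn := DV_apply LB LC x n
  have hW : inner ℝ n (DV LP LQ x n) = ev LP (om x) (et x) +
      (evA LP (om x) (et x) * inner ℝ x n + evB LP (om x) (et x) * n 2) * inner ℝ x n +
      (evA LQ (om x) (et x) * inner ℝ x n + evB LQ (om x) (et x) * n 2) * n 2 := by
    have h := inner_comb (x := x) hn 1 0 0 (ev LP (om x) (et x))
      (evA LP (om x) (et x) * inner ℝ x n + evB LP (om x) (et x) * n 2)
      (evA LQ (om x) (et x) * inner ℝ x n + evB LQ (om x) (et x) * n 2)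
    rw [← DV_apply] at h
    simp only [one_smul, zero_smul, add_zero, one_mul, zero_mul] at h
    rw [h]
  have hM1 : inner ℝ n (DV LB LC x n) = ev LB (om x) (et x) +
      (evA LB (om x) (et x) * inner ℝ x n + evB LB (om x) (et x) * n 2) * inner ℝ x n +
      (evA LC (om x) (et x) * inner ℝ x n + evB LC (om x) (et x) * n 2) * n 2 := by
    have h := inner_comb (x := x) hn 1 0 0 (ev LB (om x) (et x))
      (evA LB (om x) (et x) * inner ℝ x n + evB LB (om x) (et x) * n 2)
      (evA LC (om x) (et x) * inner ℝ x n + evB LC (om x) (et x) * n 2)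
    rw [← DV_apply] at h
    simp only [one_smul, zero_smul, add_zero, one_mul, zero_mul] at h
    rw [h]
  rw [qform, ← real_inner_self_eq_norm_sq, hM1, hW,
    ← ContinuousLinearMap.adjoint_inner_left (DV LB LC x) (DV LB LC x n) n, adjoint_DV, hMn,
    inner_comb hn, inner_comb hn, hr, hz]
  generalize om x = o at *
  generalize et x = e at *
  generalize inner ℝ x n = s at *
  generalize n.ofLp 2 = q at *
  simp only [ev, evA, evB, LB, LC, LP, LQ, List.map_cons, List.map_nil, List.sum_cons,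
    List.sum_nil, psi, psi0, psi1, psi2, psi3, psi4, psi5, psi6]
  push_cast
  field_simp
  ring

end Kusner.KF5

namespace Kusner.P

open Kusner.KF5

theorem qform_fieldX {χ : E3 → ℝ} (hχ : ContDiff ℝ ∞ χ) {U : Set E3} (hU : IsOpen U)
    (hone : ∀ x ∈ U, χ x = 1) {x : E3} (hx : x ∈ U) {n : E3} (hn : ‖n‖ = 1) :
    qform (fderiv ℝ (fieldX χ) x) (fderiv ℝ (accX χ) x) n =
      om x ^ 2 * psi (et x) (n 2 - et x * inner ℝ x n) (1 - om x) (om x * inner ℝ x n) := by
  have h1 : ∀ y ∈ U, fderiv ℝ (fieldX χ) y = DV LB LC y := by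
    intro y hy
    have h : fieldX χ =ᶠ[𝓝 y] V LB LC := by
      filter_upwards [hU.mem_nhds hy] with u hu
      exact fieldX_eq hU hone hu
    rw [h.fderiv_eq]
    exact (hasFDerivAt_V LB LC y).fderiv
  have h2 : accX χ =ᶠ[𝓝 x] V LP LQ := by
    filter_upwards [hU.mem_nhds hx] with u hu
    rw [accX, h1 u hu, fieldX_eq hU hone hu, DV_V]
  rw [h1 x hx, h2.fderiv_eq, (hasFDerivAt_V LP LQ x).fderiv]
  exact qform_DV hn

end Kusner.P
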